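import Pool.Agent.W393.VR.Hyp

set_option autoImplicit false

namespace Pool.Agent.W393.VR

open Monoid

theorem AddOn.mono {G : Type*} [Group G] {N N' : Subgroup G} {f : G → ℤ} (h : AddOn N f)
    (hN : N' ≤ N) : AddOn N' f := fun x hx y hy => h x (hN hx) y (hN hy)

theorem Det.of_conj {G : Type*} [Group G] {g g' : G} (hc : IsConj g g') (h : Det g') : Det g := by
  obtain ⟨c, hc⟩ := isConj_iff.1 hc
  obtain ⟨N, hN, f, hf, m, hm, h1, h2⟩ := h
  refine ⟨N.comap (MulAut.conj c).toMonoidHom, ⟨by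
      rw [Subgroup.index_comap_of_surjective _ (MulAut.conj c).surjective]
      exact hN.index_ne_zero⟩, fun x => f (c * x * c⁻¹), ?_, m, hm, ?_, ?_⟩
  · intro x hx y hy
    have hx' : c * x * c⁻¹ ∈ N := hx
    have hy' : c * y * c⁻¹ ∈ N := hy
    have := hf _ hx' _ hy'
    simpa [mul_assoc] using this
  · show c * g ^ m * c⁻¹ ∈ N
    rw [← conj_pow, hc]; exact h1
  · show f (c * g ^ m * c⁻¹) ≠ 0
    rw [← conj_pow, hc]; exact h2

theorem FinSep.of_conj {G : Type*} [Group G] {g g' : G} (hc : IsConj g g') (h : FinSep g') :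
    FinSep g := by
  obtain ⟨c, hc⟩ := isConj_iff.1 hc
  obtain ⟨N, hN, hF, h1⟩ := h
  refine ⟨N, hN, hF, fun x hx hxg => ?_⟩
  have h2 : c * x * c⁻¹ = 1 := by
    apply h1 _ (hN.conj_mem x hx c)
    obtain ⟨k, hk⟩ := Subgroup.mem_zpowers_iff.1 hxg
    rw [← hk, ← conj_zpow, hc]
    exact Subgroup.zpow_mem _ (Subgroup.mem_zpowers g') k
  have : x = c⁻¹ * (c * x * c⁻¹) * c := by group
  rw [this, h2]; group

theorem Det.not_finOrder {G : Type*} [Group G] {g : G} (h : Det g) : ¬ IsOfFinOrder g := by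
  intro hg
  obtain ⟨N, hN, f, hf, m, hm, h1, h2⟩ := h
  obtain ⟨k, hk, hgk⟩ := isOfFinOrder_iff_pow_eq_one.1 hg
  have h3 := hf.pow h1 k
  rw [← pow_mul, mul_comm m k, pow_mul, hgk, one_pow, hf.one] at h3
  have : (k : ℤ) ≠ 0 := by exact_mod_cast hk.ne'
  exact (mul_ne_zero this h2) h3.symm

section

variable {R : Type} [Group R] {F : Bool → Type} [∀ i, Group (F i)] (φ : ∀ i, R →* F i)

/-- The variant of `ell` with trivial edge subgroup. -/
theorem ell_one {P1 : Subgroup (F false)} {Q1 : Subgroup (F true)} {d : R} (hd1 : d = 1)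
    (hPN : P1.Normal) (hQN : Q1.Normal) (hPF : P1.FiniteIndex) (hQF : Q1.FiniteIndex)
    (hP : P1.comap (φ false) = Subgroup.zpowers d) (hQ : Q1.comap (φ true) = Subgroup.zpowers d)
    (hS : Finite (R ⧸ Subgroup.zpowers d))
    (f : F false → ℤ) (hf : AddOn P1 f) (h : F true → ℤ) (hh : AddOn Q1 h) :
    (∀ x ∈ P1, f x ≠ 0 → Det (PushoutI.of (φ := φ) false x)) ∧
    (∀ y ∈ Q1, h y ≠ 0 → Det (PushoutI.of (φ := φ) true y)) := by
  obtain ⟨m, mk, hs, -, hT⟩ := exists_trans (φ false) P1 hPN hPF d hP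
  obtain ⟨m', mk', hs', -, hT'⟩ := exists_trans (φ true) Q1 hQN hQF d hQ
  obtain ⟨rep, hrep, hrep1⟩ := exists_rep mk hs
  obtain ⟨rep', hrep', hrep1'⟩ := exists_rep mk' hs'
  have hdP : φ false d ∈ P1 := map_mem_of_zpowers (φ false) hP (Subgroup.mem_zpowers d)
  have hdQ : φ true d ∈ Q1 := map_mem_of_zpowers (φ true) hQ (Subgroup.mem_zpowers d)
  have hp := hT (Fin m') (fun _ e => rep e) (fun _ e => hrep e)
  have hq := hT' (Fin m) (fun _ e => rep' e) (fun _ e => hrep' e)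
  obtain ⟨Φ, hΦ, h1, h2⟩ := exists_action φ hPN hQN hdP hdQ hp hq
    (fun _ => f) (fun v => hf) (fun _ => h) (fun w => hh)
    (fun _ => 0) (Equiv.prodComm _ _) (by
      intro v e
      subst hd1
      simp only [map_one, mul_one, inv_mul_cancel, hf.one, hh.one])
  set s0 : R ⧸ Subgroup.zpowers d := ((1 : R) : R ⧸ Subgroup.zpowers d) with hs0
  have hout : s0.out ∈ Subgroup.zpowers d := out_one_mem d
  have hso : φ false s0.out ∈ P1 := map_mem_of_zpowers (φ false) hP hout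
  have hso' : φ true s0.out ∈ Q1 := map_mem_of_zpowers (φ true) hQ hout
  constructor
  · intro x hx hfx
    apply det_of_shifty Φ hΦ _ ((mk' 1, mk 1), s0) 1 one_pos (f x) hfx
    rw [pow_one, h1]
    have hsec : sec (φ false) d (fun (_ : Fin m') e => rep e) (mk' 1) (mk 1, s0) =
        φ false s0.out := by
      simp only [sec, hrep1, mul_one]
    have hmem : (sec (φ false) d (fun (_ : Fin m') e => rep e) (mk' 1) (mk 1, s0))⁻¹ *
        (x * sec (φ false) d (fun (_ : Fin m') e => rep e) (mk' 1) (mk 1, s0)) ∈ P1 := by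
      rw [hsec]; exact P1.mul_mem (P1.inv_mem hso) (P1.mul_mem hx hso)
    have := side_eq hp _ (fun v => hf) (fun _ => 0) x
      (mk' 1) (mk 1, s0) (mk 1, s0) 0 hmem
    rw [hsec, hf.conj hx hso] at this
    rw [this]
    simp
  · intro y hy hhy
    apply det_of_shifty Φ hΦ _ ((mk' 1, mk 1), s0) 1 one_pos (h y) hhy
    rw [pow_one]
    have hsec : sec (φ true) d (fun (_ : Fin m) e => rep' e) (mk 1) (mk' 1, s0) =
        φ true s0.out := by
      simp only [sec, hrep1', mul_one]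
    have hmem : (sec (φ true) d (fun (_ : Fin m) e => rep' e) (mk 1) (mk' 1, s0))⁻¹ *
        (y * sec (φ true) d (fun (_ : Fin m) e => rep' e) (mk 1) (mk' 1, s0)) ∈ Q1 := by
      rw [hsec]; exact Q1.mul_mem (Q1.inv_mem hso') (Q1.mul_mem hy hso')
    have := side_eq hq _ (fun v => hh) (fun _ => 0) y
      (mk 1) (mk' 1, s0) (mk' 1, s0) 0 hmem
    rw [hsec, hh.conj hy hso'] at this
    have h3 := h2 y (mk 1, mk' 1) (mk 1, mk' 1) s0 s0 0 _ this
    simpa using h3

/-- Compatible subgroups of finite index. -/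
def Data (d0 : R) : Prop := ∀ (L : Subgroup (F false)) (M : Subgroup (F true)), L.Normal → L.FiniteIndex →
  M.Normal → M.FiniteIndex → ∃ (P1 : Subgroup (F false)) (Q1 : Subgroup (F true)) (d : R),
    P1.Normal ∧ P1.FiniteIndex ∧ Q1.Normal ∧ Q1.FiniteIndex ∧ P1 ≤ L ∧ Q1 ≤ M ∧
    P1.comap (φ false) = Subgroup.zpowers d ∧ Q1.comap (φ true) = Subgroup.zpowers d ∧
    Finite (R ⧸ Subgroup.zpowers d) ∧ (d = 1 ∨ ¬ IsOfFinOrder d) ∧ d ∈ Subgroup.zpowers d0

theorem nonzero_of_mem {Q : Type} [Group Q] {N Q1 : Subgroup Q} {h : Q → ℤ} (hh : AddOn N h)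
    (b : R →* Q) {d0 d : R} {m : ℕ} (hm : (b d0) ^ m ∈ N) (hm2 : h ((b d0) ^ m) ≠ 0)
    (hQ1 : Q1 ≤ N) (hd : b d ∈ Q1) (t : ℤ) (ht : d = d0 ^ t) (hd1 : d ≠ 1) : h (b d) ≠ 0 := by
  intro h0
  have hbd : b d ∈ N := hQ1 hd
  have e1 : (b d) ^ m = ((b d0) ^ m) ^ t := by
    rw [ht, map_zpow, ← zpow_natCast, ← zpow_mul, ← zpow_natCast, ← zpow_mul, mul_comm]
  have e2 := hh.pow hbd m
  rw [e1, hh.zpow hm, h0, mul_zero] at e2
  rcases mul_eq_zero.1 e2 with h3 | h3
  · rw [h3, zpow_zero] at ht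
    exact hd1 ht
  · exact hm2 h3

theorem pow_mem_of_finiteIndex {P : Type} [Group P] {N : Subgroup P} (hN : N.Normal)
    (hF : N.FiniteIndex) (x : P) : ∃ k : ℕ, 0 < k ∧ x ^ k ∈ N :=
  ⟨N.index, Nat.pos_of_ne_zero hF.index_ne_zero, N.pow_index_mem x⟩

theorem det_false {d0 : R} (hD : Data φ d0) (hd0 : IsOfFinOrder d0 ∨ NDet (φ true d0))
    (x : F false) (hx : NDet x) : Det (PushoutI.of (φ := φ) false x) := by
  obtain ⟨N, hN, hNF, f, hf, m, hm, hx1, hx2⟩ := hx
  have main : ∀ (P1 : Subgroup (F false)), P1.Normal → P1.FiniteIndex → P1 ≤ N →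
      (∀ y ∈ P1, f y ≠ 0 → Det (PushoutI.of (φ := φ) false y)) →
      Det (PushoutI.of (φ := φ) false x) := by
    intro P1 hP1 hP1F hle hy
    obtain ⟨k, hk, hk1⟩ := pow_mem_of_finiteIndex hP1 hP1F (x ^ m)
    have h2 : f ((x ^ m) ^ k) ≠ 0 := by
      rw [hf.pow hx1 k]
      exact mul_ne_zero (by exact_mod_cast hk.ne') hx2
    have h3 := hy _ hk1 h2
    rw [map_pow] at h3
    have h4 := Det.of_pow hk h3
    rw [map_pow] at h4
    exact Det.of_pow hm h4
  rcases hd0 with h0 | h0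
  · obtain ⟨P1, Q1, d, hPN, hPF, hQN, hQF, hPL, hQM, hP, hQ, hS, hd, hdd⟩ :=
      hD N ⊤ hN hNF inferInstance inferInstance
    have hd1 : d = 1 := by
      rcases hd with h | h
      · exact h
      · exfalso
        apply h
        obtain ⟨k, rfl⟩ := Subgroup.mem_zpowers_iff.1 hdd
        exact h0.zpow
    apply main P1 hPN hPF hPL
    exact (ell_one φ hd1 hPN hQN hPF hQF hP hQ hS f (hf.mono hPL) (fun _ => 0)
      (fun _ _ _ _ => rfl)).1
  · obtain ⟨M, hM, hMF, h, hh, m', hm', hy1, hy2⟩ := h0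
    obtain ⟨P1, Q1, d, hPN, hPF, hQN, hQF, hPL, hQM, hP, hQ, hS, hd, hdd⟩ :=
      hD N M hN hNF hM hMF
    apply main P1 hPN hPF hPL
    rcases hd with hd1 | hd1
    · exact (ell_one φ hd1 hPN hQN hPF hQF hP hQ hS f (hf.mono hPL) (fun _ => 0)
        (fun _ _ _ _ => rfl)).1
    · intro y hy hfy
      obtain ⟨t, ht⟩ := Subgroup.mem_zpowers_iff.1 hdd
      have hdQ : φ true d ∈ Q1 := map_mem_of_zpowers (φ true) hQ (Subgroup.mem_zpowers d)
      refine (ell φ hPN hQN hPF hQF hP hQ hS f (hf.mono hPL) h (hh.mono hQM)).1 y hy hfy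
        (nonzero_of_mem hh (φ true) hy1 hy2 hQM hdQ t ht.symm ?_)
      rintro rfl
      exact hd1 IsOfFinOrder.one

theorem det_true {d0 : R} (hD : Data φ d0) (hd0 : IsOfFinOrder d0 ∨ NDet (φ false d0))
    (x : F true) (hx : NDet x) : Det (PushoutI.of (φ := φ) true x) := by
  obtain ⟨N, hN, hNF, f, hf, m, hm, hx1, hx2⟩ := hx
  have main : ∀ (P1 : Subgroup (F true)), P1.Normal → P1.FiniteIndex → P1 ≤ N →
      (∀ y ∈ P1, f y ≠ 0 → Det (PushoutI.of (φ := φ) true y)) →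
      Det (PushoutI.of (φ := φ) true x) := by
    intro P1 hP1 hP1F hle hy
    obtain ⟨k, hk, hk1⟩ := pow_mem_of_finiteIndex hP1 hP1F (x ^ m)
    have h2 : f ((x ^ m) ^ k) ≠ 0 := by
      rw [hf.pow hx1 k]
      exact mul_ne_zero (by exact_mod_cast hk.ne') hx2
    have h3 := hy _ hk1 h2
    rw [map_pow] at h3
    have h4 := Det.of_pow hk h3
    rw [map_pow] at h4
    exact Det.of_pow hm h4
  rcases hd0 with h0 | h0
  · obtain ⟨P1, Q1, d, hPN, hPF, hQN, hQF, hPL, hQM, hP, hQ, hS, hd, hdd⟩ :=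
      hD ⊤ N inferInstance inferInstance hN hNF
    have hd1 : d = 1 := by
      rcases hd with h | h
      · exact h
      · exfalso
        apply h
        obtain ⟨k, rfl⟩ := Subgroup.mem_zpowers_iff.1 hdd
        exact h0.zpow
    apply main Q1 hQN hQF hQM
    exact (ell_one φ hd1 hPN hQN hPF hQF hP hQ hS (fun _ => 0) (fun _ _ _ _ => rfl)
      f (hf.mono hQM)).2
  · obtain ⟨M, hM, hMF, h, hh, m', hm', hy1, hy2⟩ := h0
    obtain ⟨P1, Q1, d, hPN, hPF, hQN, hQF, hPL, hQM, hP, hQ, hS, hd, hdd⟩ :=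
      hD M N hM hMF hN hNF
    apply main Q1 hQN hQF hQM
    rcases hd with hd1 | hd1
    · exact (ell_one φ hd1 hPN hQN hPF hQF hP hQ hS (fun _ => 0) (fun _ _ _ _ => rfl)
        f (hf.mono hQM)).2
    · intro y hy hfy
      obtain ⟨t, ht⟩ := Subgroup.mem_zpowers_iff.1 hdd
      have hdP : φ false d ∈ P1 := map_mem_of_zpowers (φ false) hP (Subgroup.mem_zpowers d)
      refine (ell φ hPN hQN hPF hQF hP hQ hS h (hh.mono hPL) f (hf.mono hQM)).2 y hy hfy
        (nonzero_of_mem hh (φ false) hy1 hy2 hPL hdP t ht.symm ?_)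
      rintro rfl
      exact hd1 IsOfFinOrder.one

/-- intersection of finitely many separating subgroups -/
theorem sep_list {P : Type} [Group P] (a : R →* P)
    (hsep : ∀ x : P, x ∉ a.range → ∃ N : Subgroup P, N.Normal ∧ N.FiniteIndex ∧
      ∀ n ∈ N, ∀ r : R, x ≠ a r * n) (l : List P) (hl : ∀ x ∈ l, x ∉ a.range) :
    ∃ N : Subgroup P, N.Normal ∧ N.FiniteIndex ∧ ∀ x ∈ l, ∀ n ∈ N, ∀ r : R, x ≠ a r * n := by
  induction l with
  | nil => exact ⟨⊤, inferInstance, inferInstance, by simp⟩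
  | cons y l ih =>
    obtain ⟨N, h1, h2, h3⟩ := ih (fun x hx => hl x (List.mem_cons_of_mem _ hx))
    obtain ⟨M, g1, g2, g3⟩ := hsep y (hl y (List.mem_cons_self))
    refine ⟨N ⊓ M, inferInstance, inferInstance, ?_⟩
    intro x hx n hn r
    rcases List.mem_cons.1 hx with rfl | hx
    · exact g3 n hn.2 r
    · exact h3 x hx n hn.1 r

theorem assemble {d0 : R} (hinj : ∀ i, Function.Injective (φ i))
    (hcrit : (∀ g : PushoutI φ, ¬ IsOfFinOrder g → Det g) →
      (∀ g : PushoutI φ, IsOfFinOrder g → FinSep g) → VRC (PushoutI φ))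
    (hcl : ∀ g : PushoutI φ, (∃ (i : Bool) (x : F i), IsConj g (PushoutI.of i x)) ∨
      ∃ l : List (F false × F true), l ≠ [] ∧
        (∀ p ∈ l, p.1 ∉ (φ false).range ∧ p.2 ∉ (φ true).range) ∧
        IsConj g ((l.map (fun p => PushoutI.of false p.1 * PushoutI.of true p.2)).prod))
    (hD : Data φ d0)
    (hfin : ∀ i (x : F i), IsOfFinOrder x → FinSep x)
    (hndet : ∀ i (x : F i), ¬ IsOfFinOrder x → NDet x)
    (hsep : ∀ i (x : F i), x ∉ (φ i).range → ∃ N : Subgroup (F i), N.Normal ∧ N.FiniteIndex ∧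
      ∀ n ∈ N, ∀ r : R, x ≠ φ i r * n) : VRC (PushoutI φ) := by
  have hofinj : ∀ i, Function.Injective (PushoutI.of (φ := φ) i) := PushoutI.of_injective hinj
  have hhyp : ∀ l : List (F false × F true), l ≠ [] →
      (∀ p ∈ l, p.1 ∉ (φ false).range ∧ p.2 ∉ (φ true).range) →
      Det ((l.map (fun p => PushoutI.of (φ := φ) false p.1 * PushoutI.of true p.2)).prod) := by
    intro l hl hr
    obtain ⟨N, hN, hNF, hN1⟩ := sep_list (φ false) (hsep false) (l.map Prod.fst) (by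
      intro x hx
      obtain ⟨p, hp, rfl⟩ := List.mem_map.1 hx
      exact (hr p hp).1)
    obtain ⟨M, hM, hMF, hM1⟩ := sep_list (φ true) (hsep true) (l.map Prod.snd) (by
      intro x hx
      obtain ⟨p, hp, rfl⟩ := List.mem_map.1 hx
      exact (hr p hp).2)
    obtain ⟨P1, Q1, d, hPN, hPF, hQN, hQF, hPL, hQM, hP, hQ, hS, hd, hdd⟩ :=
      hD N M hN hNF hM hMF
    apply hyp φ hPN hQN hPF hQF hP hQ hS l hl
    · intro p hp r n hn
      exact hN1 p.1 (List.mem_map_of_mem hp) n (hPL hn) r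
    · intro p hp r n hn
      exact hM1 p.2 (List.mem_map_of_mem hp) n (hQM hn) r
  have hd0 : ∀ i, IsOfFinOrder d0 ∨ NDet (φ i d0) := by
    intro i
    by_cases h : IsOfFinOrder d0
    · exact Or.inl h
    · right
      apply hndet i
      rwa [(hinj i).isOfFinOrder_iff]
  have hell : ∀ i (x : F i), NDet x → Det (PushoutI.of (φ := φ) i x) := by
    intro i x hx
    cases i with
    | false => exact det_false φ hD (hd0 true) x hx
    | true => exact det_true φ hD (hd0 false) x hx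
  apply hcrit
  · intro g hg
    rcases hcl g with ⟨i, x, hc⟩ | ⟨l, hl, hr, hc⟩
    · apply Det.of_conj hc
      apply hell
      apply hndet
      intro hx
      apply hg
      obtain ⟨c, hc⟩ := isConj_iff.1 hc
      have h1 : IsOfFinOrder (PushoutI.of (φ := φ) i x) := MonoidHom.isOfFinOrder _ hx
      rw [← hc] at h1
      obtain ⟨n, hn, h2⟩ := isOfFinOrder_iff_pow_eq_one.1 h1
      rw [conj_pow] at h2
      refine isOfFinOrder_iff_pow_eq_one.2 ⟨n, hn, ?_⟩
      have : g ^ n = c⁻¹ * (c * g ^ n * c⁻¹) * c := by group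
      rw [this, h2]; group
    · exact Det.of_conj hc (hhyp l hl hr)
  · intro g hg
    rcases hcl g with ⟨i, x, hc⟩ | ⟨l, hl, hr, hc⟩
    · apply FinSep.of_conj hc
      have hx : IsOfFinOrder x := by
        rw [← (hofinj i).isOfFinOrder_iff]
        obtain ⟨c, hc⟩ := isConj_iff.1 hc
        obtain ⟨n, hn, h2⟩ := isOfFinOrder_iff_pow_eq_one.1 hg
        refine isOfFinOrder_iff_pow_eq_one.2 ⟨n, hn, ?_⟩
        rw [← hc, conj_pow, h2]; group
      obtain ⟨N, hN, hNF, hN1⟩ := hfin i x hx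
      have key : ∃ K : Subgroup (PushoutI φ), K.Normal ∧ K.FiniteIndex ∧
          ∀ y : F i, PushoutI.of i y ∈ K → y ∈ N := by
        cases i with
        | false =>
          obtain ⟨P1, Q1, d, hPN, hPF, hQN, hQF, hPL, hQM, hP, hQ, hS, hd, hdd⟩ :=
            hD N ⊤ hN hNF inferInstance inferInstance
          obtain ⟨K, hK, hKF, h1, h2⟩ := kern φ hPN hQN hPF hQF hP hQ hS
          exact ⟨K, hK, hKF, fun y hy => hPL (h1 y hy)⟩
        | true =>
          obtain ⟨P1, Q1, d, hPN, hPF, hQN, hQF, hPL, hQM, hP, hQ, hS, hd, hdd⟩ :=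
            hD ⊤ N inferInstance inferInstance hN hNF
          obtain ⟨K, hK, hKF, h1, h2⟩ := kern φ hPN hQN hPF hQF hP hQ hS
          exact ⟨K, hK, hKF, fun y hy => hQM (h2 y hy)⟩
      obtain ⟨K, hK, hKF, hK1⟩ := key
      refine ⟨K, hK, hKF, ?_⟩
      intro y hy hyx
      obtain ⟨k, rfl⟩ := Subgroup.mem_zpowers_iff.1 hyx
      rw [← map_zpow] at hy ⊢
      have h3 := hN1 _ (hK1 _ hy) (Subgroup.zpow_mem _ (Subgroup.mem_zpowers x) k)
      rw [h3, map_one]
    · exfalso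
      exact (Det.of_conj hc (hhyp l hl hr)).not_finOrder hg

end

end Pool.Agent.W393.VR
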