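import Mathlib

set_option autoImplicit false

namespace Pool.Agent.W393.VR

/-- `H` is a virtual retract of `G`. -/
def VRetract {G : Type*} [Group G] (H : Subgroup G) : Prop :=
  ∃ K : Subgroup G, K.FiniteIndex ∧ H ≤ K ∧
    ∃ ρ : K →* G, (∀ x, ρ x ∈ H) ∧ ∀ x : K, (x : G) ∈ H → ρ x = x

/-- Property (VRC): every cyclic subgroup is a virtual retract. -/
def VRC (G : Type*) [Group G] : Prop :=
  ∀ g : G, VRetract (Subgroup.zpowers g)

/-- `f` is additive on the subgroup `N`. -/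
def AddOn {G : Type*} [Group G] (N : Subgroup G) (f : G → ℤ) : Prop :=
  ∀ x ∈ N, ∀ y ∈ N, f (x * y) = f x + f y

/-- Some power of `g` has nonzero image under a homomorphism to the integers defined on a
subgroup of finite index. -/
def Det {G : Type*} [Group G] (g : G) : Prop :=
  ∃ N : Subgroup G, N.FiniteIndex ∧ ∃ f : G → ℤ, AddOn N f ∧
    ∃ m : ℕ, 0 < m ∧ g ^ m ∈ N ∧ f (g ^ m) ≠ 0

/-- The same with a normal subgroup. -/
def NDet {G : Type*} [Group G] (g : G) : Prop :=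
  ∃ N : Subgroup G, N.Normal ∧ N.FiniteIndex ∧ ∃ f : G → ℤ, AddOn N f ∧
    ∃ m : ℕ, 0 < m ∧ g ^ m ∈ N ∧ f (g ^ m) ≠ 0

/-- A normal subgroup of finite index meets the cyclic group of `g` trivially. -/
def FinSep {G : Type*} [Group G] (g : G) : Prop :=
  ∃ N : Subgroup G, N.Normal ∧ N.FiniteIndex ∧ ∀ x ∈ N, x ∈ Subgroup.zpowers g → x = 1

end Pool.Agent.W393.VR
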