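import Pool.Agent.W393.VR.Glue

set_option autoImplicit false

namespace Pool.Agent.W393.VR

open Monoid

theorem AddOn.smul {G : Type*} [Group G] {N : Subgroup G} {f : G → ℤ} (h : AddOn N f) (c : ℤ) :
    AddOn N (fun x => c * f x) := by
  intro x hx y hy
  show c * f (x * y) = c * f x + c * f y
  rw [h x hx y hy]; ring

theorem AddOn.conj {G : Type*} [Group G] {N : Subgroup G} {f : G → ℤ} (h : AddOn N f)
    {x n : G} (hx : x ∈ N) (hn : n ∈ N) : f (n⁻¹ * (x * n)) = f x := by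
  rw [h _ (N.inv_mem hn) _ (N.mul_mem hx hn), h _ hx _ hn, h.inv hn]; ring

theorem Det.of_pow {G : Type*} [Group G] {g : G} {k : ℕ} (hk : 0 < k) (h : Det (g ^ k)) : Det g := by
  obtain ⟨N, hN, f, hf, m, hm, h1, h2⟩ := h
  exact ⟨N, hN, f, hf, k * m, Nat.mul_pos hk hm, by rwa [pow_mul], by rwa [pow_mul]⟩

theorem out_one_mem {R : Type*} [Group R] (d : R) :
    ((1 : R) : R ⧸ Subgroup.zpowers d).out ∈ Subgroup.zpowers d := by
  have h1 : (((1 : R) : R ⧸ Subgroup.zpowers d).out : R ⧸ Subgroup.zpowers d) =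
    ((1 : R) : R ⧸ Subgroup.zpowers d) := QuotientGroup.out_eq' _
  have h2 := QuotientGroup.eq.1 h1.symm
  simpa using h2

section

variable {R : Type*} [Group R] {F : Bool → Type*} [∀ i, Group (F i)] (φ : ∀ i, R →* F i)

/-- normalised representatives -/
theorem exists_rep {P : Type*} [Group P] {m : ℕ} (mk : P → Fin m) (hs : Function.Surjective mk) :
    ∃ rep : Fin m → P, (∀ e, mk (rep e) = e) ∧ rep (mk 1) = 1 := by
  classical
  refine ⟨fun e => if e = mk 1 then 1 else (hs e).choose, ?_, by simp⟩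
  intro e
  by_cases h : e = mk 1
  · simp [h]
  · simp only [h, if_false]
    exact (hs e).choose_spec

theorem map_mem_of_zpowers {P : Type*} [Group P] (a : R →* P) {P1 : Subgroup P} {d : R}
    (hd : P1.comap a = Subgroup.zpowers d) {r : R} (hr : r ∈ Subgroup.zpowers d) : a r ∈ P1 := by
  rw [← hd] at hr
  exact hr

theorem ell {P1 : Subgroup (F false)} {Q1 : Subgroup (F true)} {d : R}
    (hPN : P1.Normal) (hQN : Q1.Normal) (hPF : P1.FiniteIndex) (hQF : Q1.FiniteIndex)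
    (hP : P1.comap (φ false) = Subgroup.zpowers d) (hQ : Q1.comap (φ true) = Subgroup.zpowers d)
    (hS : Finite (R ⧸ Subgroup.zpowers d))
    (f : F false → ℤ) (hf : AddOn P1 f) (h : F true → ℤ) (hh : AddOn Q1 h) :
    (∀ x ∈ P1, f x ≠ 0 → h (φ true d) ≠ 0 → Det (PushoutI.of (φ := φ) false x)) ∧
    (∀ y ∈ Q1, h y ≠ 0 → f (φ false d) ≠ 0 → Det (PushoutI.of (φ := φ) true y)) := by
  obtain ⟨m, mk, hs, -, hT⟩ := exists_trans (φ false) P1 hPN hPF d hP
  obtain ⟨m', mk', hs', -, hT'⟩ := exists_trans (φ true) Q1 hQN hQF d hQ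
  obtain ⟨rep, hrep, hrep1⟩ := exists_rep mk hs
  obtain ⟨rep', hrep', hrep1'⟩ := exists_rep mk' hs'
  have hdP : φ false d ∈ P1 := map_mem_of_zpowers (φ false) hP (Subgroup.mem_zpowers d)
  have hdQ : φ true d ∈ Q1 := map_mem_of_zpowers (φ true) hQ (Subgroup.mem_zpowers d)
  have hp := hT (Fin m') (fun _ e => rep e) (fun _ e => hrep e)
  have hq := hT' (Fin m) (fun _ e => rep' e) (fun _ e => hrep' e)
  obtain ⟨Φ, hΦ, h1, h2⟩ := exists_action φ hPN hQN hdP hdQ hp hq
    (fun v x => h ((rep' v)⁻¹ * φ true d * rep' v) * f x) (fun v => hf.smul _)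
    (fun w y => f ((rep w)⁻¹ * φ false d * rep w) * h y) (fun w => hh.smul _)
    (fun _ => 0) (Equiv.prodComm _ _) (by
      intro v e
      simp only [Equiv.prodComm_apply, Prod.swap_prod_mk]
      ring)
  set s0 : R ⧸ Subgroup.zpowers d := ((1 : R) : R ⧸ Subgroup.zpowers d) with hs0
  have hout : s0.out ∈ Subgroup.zpowers d := out_one_mem d
  have hso : φ false s0.out ∈ P1 := map_mem_of_zpowers (φ false) hP hout
  have hso' : φ true s0.out ∈ Q1 := map_mem_of_zpowers (φ true) hQ hout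
  constructor
  · intro x hx hfx hhd
    apply det_of_shifty Φ hΦ _ ((mk' 1, mk 1), s0) 1 one_pos
      (h (φ true d) * f x) (mul_ne_zero hhd hfx)
    rw [pow_one, h1]
    have hsec : sec (φ false) d (fun (_ : Fin m') e => rep e) (mk' 1) (mk 1, s0) =
        φ false s0.out := by
      simp only [sec, hrep1, mul_one]
    have hmem : (sec (φ false) d (fun (_ : Fin m') e => rep e) (mk' 1) (mk 1, s0))⁻¹ *
        (x * sec (φ false) d (fun (_ : Fin m') e => rep e) (mk' 1) (mk 1, s0)) ∈ P1 := by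
      rw [hsec]; exact P1.mul_mem (P1.inv_mem hso) (P1.mul_mem hx hso)
    have := side_eq hp _ (fun v => hf.smul (h ((rep' v)⁻¹ * φ true d * rep' v))) (fun _ => 0) x
      (mk' 1) (mk 1, s0) (mk 1, s0) 0 hmem
    rw [hsec, hf.conj hx hso, hrep1'] at this
    rw [this]
    simp
  · intro y hy hhy hfd
    apply det_of_shifty Φ hΦ _ ((mk' 1, mk 1), s0) 1 one_pos
      (f (φ false d) * h y) (mul_ne_zero hfd hhy)
    rw [pow_one]
    have hsec : sec (φ true) d (fun (_ : Fin m) e => rep' e) (mk 1) (mk' 1, s0) =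
        φ true s0.out := by
      simp only [sec, hrep1', mul_one]
    have hmem : (sec (φ true) d (fun (_ : Fin m) e => rep' e) (mk 1) (mk' 1, s0))⁻¹ *
        (y * sec (φ true) d (fun (_ : Fin m) e => rep' e) (mk 1) (mk' 1, s0)) ∈ Q1 := by
      rw [hsec]; exact Q1.mul_mem (Q1.inv_mem hso') (Q1.mul_mem hy hso')
    have := side_eq hq _ (fun v => hh.smul (f ((rep v)⁻¹ * φ false d * rep v))) (fun _ => 0) y
      (mk 1) (mk' 1, s0) (mk' 1, s0) 0 hmem
    rw [hsec, hh.conj hy hso', hrep1] at this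
    have h3 := h2 y (mk 1, mk' 1) (mk 1, mk' 1) s0 s0 0 _ this
    simpa using h3

theorem kern {P1 : Subgroup (F false)} {Q1 : Subgroup (F true)} {d : R}
    (hPN : P1.Normal) (hQN : Q1.Normal) (hPF : P1.FiniteIndex) (hQF : Q1.FiniteIndex)
    (hP : P1.comap (φ false) = Subgroup.zpowers d) (hQ : Q1.comap (φ true) = Subgroup.zpowers d)
    (hS : Finite (R ⧸ Subgroup.zpowers d)) :
    ∃ N : Subgroup (PushoutI φ), N.Normal ∧ N.FiniteIndex ∧
      (∀ x, PushoutI.of (φ := φ) false x ∈ N → x ∈ P1) ∧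
      (∀ y, PushoutI.of (φ := φ) true y ∈ N → y ∈ Q1) := by
  classical
  obtain ⟨m, mk, hs, -, hT⟩ := exists_trans (φ false) P1 hPN hPF d hP
  obtain ⟨m', mk', hs', -, hT'⟩ := exists_trans (φ true) Q1 hQN hQF d hQ
  obtain ⟨rep, hrep, hrep1⟩ := exists_rep mk hs
  obtain ⟨rep', hrep', hrep1'⟩ := exists_rep mk' hs'
  have hdP : φ false d ∈ P1 := map_mem_of_zpowers (φ false) hP (Subgroup.mem_zpowers d)
  have hdQ : φ true d ∈ Q1 := map_mem_of_zpowers (φ true) hQ (Subgroup.mem_zpowers d)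
  have hp := hT (Fin m') (fun _ e => rep e) (fun _ e => hrep e)
  have hq := hT' (Fin m) (fun _ e => rep' e) (fun _ e => hrep' e)
  have hz : AddOn P1 (fun _ => 0) := fun _ _ _ _ => rfl
  have hz' : AddOn Q1 (fun _ => 0) := fun _ _ _ _ => rfl
  obtain ⟨Φ, hΦ, h1, h2⟩ := exists_action φ hPN hQN hdP hdQ hp hq
    (fun _ _ => 0) (fun v => hz) (fun _ _ => 0) (fun w => hz')
    (fun _ => 0) (Equiv.prodComm _ _) (fun v e => rfl)
  set s0 : R ⧸ Subgroup.zpowers d := ((1 : R) : R ⧸ Subgroup.zpowers d) with hs0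
  have hout : s0.out ∈ Subgroup.zpowers d := out_one_mem d
  have hso : φ false s0.out ∈ P1 := map_mem_of_zpowers (φ false) hP hout
  have hso' : φ true s0.out ∈ Q1 := map_mem_of_zpowers (φ true) hQ hout
  let A : PushoutI φ →* Equiv.Perm ((Fin m' × Fin m) × (R ⧸ Subgroup.zpowers d)) :=
    hΦ.act.toHomPerm
  have hA : ∀ g ω, A g ω = (Φ g (ω, 0)).1 := fun g ω => rfl
  refine ⟨A.ker, inferInstance, inferInstance, ?_, ?_⟩
  · intro x hx
    rw [MonoidHom.mem_ker] at hx
    have h3 : (Φ (PushoutI.of false x) (((mk' 1, mk 1), s0), 0)).1 = ((mk' 1, mk 1), s0) := by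
      rw [← hA, hx]; rfl
    rw [h1] at h3
    have hm := cho_mem hp (mk' 1) (x * sec (φ false) d (fun (_ : Fin m') e => rep e) (mk' 1) (mk 1, s0))
    have h4 := side_eq hp _ (fun v => hz) (fun _ => 0) x (mk' 1) (mk 1, s0) _ 0 hm
    rw [h4] at h3
    simp only [Prod.mk.injEq] at h3
    have h5 : cho hp (mk' 1) (x * sec (φ false) d (fun (_ : Fin m') e => rep e) (mk' 1) (mk 1, s0)) =
      (mk 1, s0) := Prod.ext h3.1.2 h3.2
    rw [h5] at hm
    have hsec : sec (φ false) d (fun (_ : Fin m') e => rep e) (mk' 1) (mk 1, s0) =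
        φ false s0.out := by
      simp only [sec, hrep1, mul_one]
    rw [hsec] at hm
    have := P1.mul_mem (P1.mul_mem hso hm) (P1.inv_mem hso)
    simpa [mul_assoc] using this
  · intro y hy
    rw [MonoidHom.mem_ker] at hy
    have h3 : (Φ (PushoutI.of true y) (((mk' 1, mk 1), s0), 0)).1 = ((mk' 1, mk 1), s0) := by
      rw [← hA, hy]; rfl
    have hm := cho_mem hq (mk 1) (y * sec (φ true) d (fun (_ : Fin m) e => rep' e) (mk 1) (mk' 1, s0))
    have h4 := side_eq hq _ (fun v => hz') (fun _ => 0) y (mk 1) (mk' 1, s0) _ 0 hm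
    have h6 := h2 y (mk 1, mk' 1) _ s0 _ 0 _ h4
    have h7 : (Equiv.prodComm (Fin m') (Fin m)).symm (mk 1, mk' 1) = (mk' 1, mk 1) := rfl
    rw [h7] at h6
    rw [h6] at h3
    simp only [Equiv.prodComm_symm, Equiv.prodComm_apply, Prod.swap_prod_mk, Prod.mk.injEq] at h3
    have h5 : cho hq (mk 1) (y * sec (φ true) d (fun (_ : Fin m) e => rep' e) (mk 1) (mk' 1, s0)) =
      (mk' 1, s0) := Prod.ext h3.1.1 h3.2
    rw [h5] at hm
    have hsec : sec (φ true) d (fun (_ : Fin m) e => rep' e) (mk 1) (mk' 1, s0) =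
        φ true s0.out := by
      simp only [sec, hrep1', mul_one]
    rw [hsec] at hm
    have := Q1.mul_mem (Q1.mul_mem hso' hm) (Q1.inv_mem hso')
    simpa [mul_assoc] using this

end

end Pool.Agent.W393.VR
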