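import Pool.Agent.W393.VR.Trans

set_option autoImplicit false

namespace Pool.Agent.W393.VR

open Monoid

section glue

variable {R : Type*} [Group R] {F : Bool → Type*} [∀ i, Group (F i)] (φ : ∀ i, R →* F i)

theorem glue {K : Type*} [Group K] (ΦP : F false →* K) (ΦQ : F true →* K)
    (h : ∀ r, ΦP (φ false r) = ΦQ (φ true r)) :
    ∃ Φ : PushoutI φ →* K, (∀ x, Φ (PushoutI.of false x) = ΦP x) ∧
      (∀ y, Φ (PushoutI.of true y) = ΦQ y) := by
  let f : ∀ i, F i →* K := fun i => match i with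
    | false => ΦP
    | true => ΦQ
  have hf : ∀ i, (f i).comp (φ i) = ΦP.comp (φ false) := by
    intro i
    cases i with
    | false => rfl
    | true =>
      ext r
      exact (h r).symm
  refine ⟨PushoutI.lift f (ΦP.comp (φ false)) hf, ?_, ?_⟩
  · intro x
    exact PushoutI.lift_of (i := false) f (ΦP.comp (φ false)) hf x
  · intro y
    exact PushoutI.lift_of (i := true) f (ΦP.comp (φ false)) hf y

theorem shifty_of {Ω : Type*} (Φ : PushoutI φ →* Equiv.Perm (Ω × ℤ))
    (h1 : ∀ (x : F false) (ω : Ω) (z k : ℤ), Φ (PushoutI.of false x) (ω, z + k) =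
      ((Φ (PushoutI.of false x) (ω, z)).1, (Φ (PushoutI.of false x) (ω, z)).2 + k))
    (h2 : ∀ (x : F true) (ω : Ω) (z k : ℤ), Φ (PushoutI.of true x) (ω, z + k) =
      ((Φ (PushoutI.of true x) (ω, z)).1, (Φ (PushoutI.of true x) (ω, z)).2 + k)) :
    Shifty Φ := by
  intro g
  induction g using PushoutI.induction_on with
  | of i x =>
    cases i with
    | false => exact h1 x
    | true => exact h2 x
  | base r =>
    have := h1 (φ false r)
    rwa [PushoutI.of_apply_eq_base] at this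
  | mul x y hx hy =>
    intro ω z k
    rw [map_mul, Equiv.Perm.mul_apply, Equiv.Perm.mul_apply, hy ω z k, hx]

/-- The glued action. -/
theorem exists_action {P1 : Subgroup (F false)} {Q1 : Subgroup (F true)} {d : R}
    (hPN : P1.Normal) (hQN : Q1.Normal) (hdP : φ false d ∈ P1) (hdQ : φ true d ∈ Q1)
    {V W E E' : Type} {p : V → E → F false} {q : W → E' → F true}
    (hp : Trans (φ false) P1 d p) (hq : Trans (φ true) Q1 d q)
    (f : V → F false → ℤ) (hf : ∀ v, AddOn P1 (f v))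
    (h : W → F true → ℤ) (hh : ∀ w, AddOn Q1 (h w))
    (u : W × E' → ℤ) (σ : V × E ≃ W × E')
    (hc : ∀ v e, f v ((p v e)⁻¹ * φ false d * p v e) =
      h (σ (v, e)).1 ((q (σ (v, e)).1 (σ (v, e)).2)⁻¹ * φ true d * q (σ (v, e)).1 (σ (v, e)).2)) :
    ∃ Φ : PushoutI φ →* Equiv.Perm (((V × E) × (R ⧸ Subgroup.zpowers d)) × ℤ), Shifty Φ ∧
      (∀ x w, Φ (PushoutI.of false x) w = side hp f hf (fun _ => 0) x w) ∧
      (∀ y (w w' : W × E') (s s' : R ⧸ Subgroup.zpowers d) (z z' : ℤ),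
        side hq h hh u y ((w, s), z) = ((w', s'), z') →
        Φ (PushoutI.of true y) ((σ.symm w, s), z) = ((σ.symm w', s'), z')) := by
  let e : (((V × E) × (R ⧸ Subgroup.zpowers d)) × ℤ) ≃
      (((W × E') × (R ⧸ Subgroup.zpowers d)) × ℤ) :=
    (σ.prodCongr (Equiv.refl _)).prodCongr (Equiv.refl _)
  let ΦQ : F true →* Equiv.Perm (((V × E) × (R ⧸ Subgroup.zpowers d)) × ℤ) :=
    (e.symm.permCongrHom.toMonoidHom).comp (side hq h hh u)
  have hΦQ : ∀ y w, ΦQ y w = e.symm (side hq h hh u y (e w)) := by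
    intro y w
    rfl
  obtain ⟨Φ, h1, h2⟩ := glue φ (side hp f hf (fun _ => 0)) ΦQ (by
    intro r
    ext1 w
    obtain ⟨⟨⟨v, e0⟩, s⟩, z⟩ := w
    rw [side_base hp hPN hdP f hf _ r v e0 s z, hΦQ]
    have he : e (((v, e0), s), z) = ((((σ (v, e0)).1, (σ (v, e0)).2), s), z) := rfl
    rw [he, side_base hq hQN hdQ h hh u r _ _ s z, ← hc v e0]
    show _ = ((σ.symm (((σ (v, e0)).1, (σ (v, e0)).2)), r • s), _)
    rw [Prod.mk.eta, Equiv.symm_apply_apply]
    rfl)
  refine ⟨Φ, ?_, ?_, ?_⟩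
  · apply shifty_of
    · intro x ω z k
      rw [h1]
      exact side_shifty hp f hf _ x ω z k
    · intro y ω z k
      rw [h2, hΦQ, hΦQ]
      have ha : e (ω, z + k) = ((e (ω, z)).1, z + k) := rfl
      have hb : e (ω, z) = ((e (ω, z)).1, z) := rfl
      rw [ha, side_shifty hq h hh u y _ z k, ← hb]
      rfl
  · intro x w
    rw [h1]
  · intro y w w' s s' z z' hs
    rw [h2, hΦQ]
    have he : e ((σ.symm w, s), z) = ((w, s), z) := by
      show ((σ (σ.symm w), s), z) = _
      rw [Equiv.apply_symm_apply]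
    rw [he, hs]
    rfl

end glue

end Pool.Agent.W393.VR
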