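import Pool.Agent.W393.VR.Ell

set_option autoImplicit false

namespace Pool.Agent.W393.VR

open Monoid

theorem exists_sigma {ι α β : Type} [Finite α] [Finite β] (hcard : Nat.card α = Nat.card β)
    (i : ι → α) (j : ι → β) (hi : Function.Injective i) (hj : Function.Injective j) :
    ∃ σ : α ≃ β, ∀ t, σ (i t) = j t := by
  classical
  obtain ⟨e⟩ : Nonempty (α ≃ β) := Finite.card_eq.1 hcard
  have hei : Function.Injective (fun t => e (i t)) := e.injective.comp hi
  let E : {x // x ∈ Set.range (fun t => e (i t))} ≃ {x // x ∈ Set.range j} :=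
    (Equiv.ofInjective _ hei).symm.trans (Equiv.ofInjective j hj)
  have hE : ∀ t (h : e (i t) ∈ Set.range (fun t => e (i t))), (E ⟨e (i t), h⟩ : β) = j t := by
    intro t h
    have h1 : (⟨e (i t), h⟩ : {x // x ∈ Set.range (fun t => e (i t))}) =
        Equiv.ofInjective _ hei t := by
      apply Subtype.ext; rfl
    rw [h1]
    show ((Equiv.ofInjective j hj) ((Equiv.ofInjective _ hei).symm (Equiv.ofInjective _ hei t)) : β) = _
    rw [Equiv.symm_apply_apply]
    rfl
  refine ⟨e.trans E.extendSubtype, ?_⟩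
  intro t
  rw [Equiv.trans_apply, Equiv.extendSubtype_apply_of_mem E _ ⟨t, rfl⟩]
  exact hE t _

section

variable {R : Type*} [Group R] {F : Bool → Type*} [∀ i, Group (F i)] (φ : ∀ i, R →* F i)

theorem hyp {P1 : Subgroup (F false)} {Q1 : Subgroup (F true)} {d : R}
    (hPN : P1.Normal) (hQN : Q1.Normal) (hPF : P1.FiniteIndex) (hQF : Q1.FiniteIndex)
    (hP : P1.comap (φ false) = Subgroup.zpowers d) (hQ : Q1.comap (φ true) = Subgroup.zpowers d)
    (hS : Finite (R ⧸ Subgroup.zpowers d))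
    (l : List (F false × F true)) (hl : l ≠ [])
    (hx : ∀ pr ∈ l, ∀ r : R, ∀ n ∈ P1, pr.1 ≠ φ false r * n)
    (hy : ∀ pr ∈ l, ∀ r : R, ∀ n ∈ Q1, pr.2 ≠ φ true r * n) :
    Det ((l.map (fun pr => PushoutI.of (φ := φ) false pr.1 * PushoutI.of true pr.2)).prod) := by
  classical
  obtain ⟨m, mk, hs, hmk, hT⟩ := exists_trans (φ false) P1 hPN hPF d hP
  obtain ⟨m', mk', hs', hmk', hT'⟩ := exists_trans (φ true) Q1 hQN hQF d hQ
  obtain ⟨rep, hrep, hrep1⟩ := exists_rep mk hs
  obtain ⟨rep', hrep', hrep1'⟩ := exists_rep mk' hs'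
  have hdP : φ false d ∈ P1 := map_mem_of_zpowers (φ false) hP (Subgroup.mem_zpowers d)
  have hdQ : φ true d ∈ Q1 := map_mem_of_zpowers (φ true) hQ (Subgroup.mem_zpowers d)
  obtain ⟨n, hn⟩ : ∃ n, l.length = n := ⟨_, rfl⟩
  have hn0 : 0 < n := by
    rw [← hn]; exact List.length_pos_of_ne_nil hl
  let pr : ℕ → Fin n := fun c => if h : c ≠ 0 ∧ c ≤ n then ⟨c - 1, by omega⟩ else ⟨n - 1, by omega⟩
  have pr_succ : ∀ k (hk : k < n), pr (k + 1) = ⟨k, hk⟩ := by
    intro k hk
    have : k + 1 ≠ 0 ∧ k + 1 ≤ n := by omega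
    simp only [pr, this, and_self, dif_pos, ne_eq, not_false_eq_true, add_tsub_cancel_right]
  have pr_end : pr n = pr 0 := by
    have h1 : n ≠ 0 ∧ n ≤ n := by omega
    have h2 : ¬ ((0 : ℕ) ≠ 0 ∧ 0 ≤ n) := by omega
    simp only [pr]
    rw [dif_pos h1, dif_neg h2]
  have pr_inj : ∀ k k' : Fin n, pr k = pr k' → k = k' := by
    intro k k' h
    have hk := k.2
    have hk' := k'.2
    simp only [pr] at h
    split_ifs at h with a b <;> rw [Fin.mk.injEq] at h <;> apply Fin.ext <;> omega
  let X : Fin n → F false := fun k => (l[(k : ℕ)]'(by rw [hn]; exact k.2)).1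
  let Y : Fin n → F true := fun k => (l[(k : ℕ)]'(by rw [hn]; exact k.2)).2
  have hX : ∀ k, mk (X k) ≠ mk 1 := by
    intro k h
    obtain ⟨r, c, hc, e⟩ := (hmk 1 (X k)).1 h.symm
    exact hx _ (List.getElem_mem _) r c hc (by simpa using e)
  have hY : ∀ k, mk' (Y k) ≠ mk' 1 := by
    intro k h
    obtain ⟨r, c, hc, e⟩ := (hmk' 1 (Y k)).1 h.symm
    exact hy _ (List.getElem_mem _) r c hc (by simpa using e)
  let p : Fin n × Fin m' → Fin m → F false := fun v e =>
    if e = mk 1 then 1 else if e = mk (X v.1) then X v.1 else rep e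
  let q : Fin n × Fin m → Fin m' → F true := fun w e =>
    if e = mk' 1 then 1 else if e = mk' (Y w.1) then Y w.1 else rep' e
  have hpm : ∀ v e, mk (p v e) = e := by
    intro v e
    simp only [p]
    split_ifs with h1 h2
    · exact h1.symm
    · exact h2.symm
    · exact hrep e
  have hqm : ∀ w e, mk' (q w e) = e := by
    intro v e
    simp only [q]
    split_ifs with h1 h2
    · exact h1.symm
    · exact h2.symm
    · exact hrep' e
  have hp := hT _ p hpm
  have hq := hT' _ q hqm
  let i : Fin n × Bool → (Fin n × Fin m') × Fin m := fun t =>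
    ((t.1, mk' 1), if t.2 then mk (X t.1) else mk 1)
  let j : Fin n × Bool → (Fin n × Fin m) × Fin m' := fun t =>
    if t.2 then ((pr t.1, mk 1), mk' 1) else ((t.1, mk 1), mk' (Y t.1))
  have hi : Function.Injective i := by
    rintro ⟨k, b⟩ ⟨k', b'⟩ h
    simp only [i, Prod.mk.injEq, and_true] at h
    obtain ⟨h1, h2⟩ := h
    subst h1
    cases b <;> cases b' <;> simp only [if_true, if_false, Bool.false_eq_true] at h2
    · rfl
    · exact absurd h2.symm (hX k)
    · exact absurd h2 (hX k)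
    · rfl
  have hj : Function.Injective j := by
    rintro ⟨k, b⟩ ⟨k', b'⟩ h
    cases b <;> cases b' <;> simp only [j, Prod.mk.injEq, and_true, if_true, if_false,
      Bool.false_eq_true] at h
    · rw [h.1]
    · exact absurd h.2 (hY k)
    · exact absurd h.2.symm (hY k')
    · have : k = k' := pr_inj k k' h
      rw [this]
  obtain ⟨σ, hσ⟩ := exists_sigma (by simp [Nat.card_prod, mul_comm, mul_left_comm]) i j hi hj
  have hz : AddOn P1 (fun _ => 0) := fun _ _ _ _ => rfl
  have hz' : AddOn Q1 (fun _ => 0) := fun _ _ _ _ => rfl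
  obtain ⟨Φ, hΦ, h1, h2⟩ := exists_action φ hPN hQN hdP hdQ hp hq
    (fun _ _ => 0) (fun v => hz) (fun _ _ => 0) (fun w => hz')
    (fun w => if w.2 = mk' 1 then 0 else 1) σ (fun v e => rfl)
  set s0 : R ⧸ Subgroup.zpowers d := ((1 : R) : R ⧸ Subgroup.zpowers d) with hs0
  have hout : s0.out ∈ Subgroup.zpowers d := out_one_mem d
  have hso : φ false s0.out ∈ P1 := map_mem_of_zpowers (φ false) hP hout
  have hso' : φ true s0.out ∈ Q1 := map_mem_of_zpowers (φ true) hQ hout
  -- the step
  have step : ∀ (k : Fin n) (z : ℤ),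
      Φ (PushoutI.of false (X k) * PushoutI.of true (Y k)) ((σ.symm ((k, mk 1), mk' 1), s0), z) =
        ((σ.symm ((pr k, mk 1), mk' 1), s0), z + 1) := by
    intro k z
    have q1 : q (k, mk 1) (mk' 1) = 1 := by simp [q]
    have q2 : q (k, mk 1) (mk' (Y k)) = Y k := by simp [q, hY k]
    have p1 : p (k, mk' 1) (mk 1) = 1 := by simp [p]
    have p2 : p (k, mk' 1) (mk (X k)) = X k := by simp [p, hX k]
    have m1 : (sec (φ true) d q (k, mk 1) (mk' (Y k), s0))⁻¹ *
        (Y k * sec (φ true) d q (k, mk 1) (mk' 1, s0)) ∈ Q1 := by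
      simp only [sec, q1, q2, mul_one]
      have e1 : (φ true s0.out * Y k)⁻¹ * (Y k * φ true s0.out) =
          ((Y k)⁻¹ * (φ true s0.out)⁻¹ * ((Y k)⁻¹)⁻¹) * φ true s0.out := by group
      rw [e1]
      exact Q1.mul_mem (hQN.conj_mem _ (Q1.inv_mem hso') _) hso'
    have a1 := side_eq hq _ (fun w => hz') (fun w => if w.2 = mk' 1 then (0 : ℤ) else 1) (Y k)
      (k, mk 1) (mk' 1, s0) (mk' (Y k), s0) z m1
    have a2 := h2 (Y k) _ _ _ _ _ _ a1
    have m2 : (sec (φ false) d p (k, mk' 1) (mk (X k), s0))⁻¹ *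
        (X k * sec (φ false) d p (k, mk' 1) (mk 1, s0)) ∈ P1 := by
      simp only [sec, p1, p2, mul_one]
      have e1 : (φ false s0.out * X k)⁻¹ * (X k * φ false s0.out) =
          ((X k)⁻¹ * (φ false s0.out)⁻¹ * ((X k)⁻¹)⁻¹) * φ false s0.out := by group
      rw [e1]
      exact P1.mul_mem (hPN.conj_mem _ (P1.inv_mem hso) _) hso
    have a3 := side_eq hp _ (fun w => hz) (fun _ => (0 : ℤ)) (X k)
      (k, mk' 1) (mk 1, s0) (mk (X k), s0) (z + 1) m2
    have b1 : σ.symm ((k, mk 1), mk' (Y k)) = ((k, mk' 1), mk 1) := by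
      rw [Equiv.symm_apply_eq]
      have := hσ (k, false)
      simpa [i, j] using this.symm
    have b2 : σ.symm ((pr k, mk 1), mk' 1) = ((k, mk' 1), mk (X k)) := by
      rw [Equiv.symm_apply_eq]
      have := hσ (k, true)
      simpa [i, j] using this.symm
    rw [map_mul, Equiv.Perm.mul_apply, a2]
    simp only [hY k, if_false, if_true, add_zero, sub_zero]
    rw [b1, h1, a3, b2]
    simp
  have key : ∀ c : ℕ, c ≤ n → ∀ z : ℤ,
      Φ (((l.drop (n - c)).map
        (fun pr => PushoutI.of (φ := φ) false pr.1 * PushoutI.of true pr.2)).prod)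
        ((σ.symm ((pr n, mk 1), mk' 1), s0), z) =
        ((σ.symm ((pr (n - c), mk 1), mk' 1), s0), z + c) := by
    intro c
    induction c with
    | zero =>
      intro _ z
      simp [← hn]
    | succ c ih =>
      intro hc z
      have hlt : n - (c + 1) < n := by omega
      have hd : l.drop (n - (c + 1)) = l[n - (c + 1)]'(by rw [hn]; exact hlt) :: l.drop (n - c) := by
        rw [List.drop_eq_getElem_cons (by rw [hn]; exact hlt)]
        congr 2
        omega
      rw [hd, List.map_cons, List.prod_cons, map_mul, Equiv.Perm.mul_apply, ih (by omega) z]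
      have hk : pr (n - c) = ⟨n - (c + 1), hlt⟩ := by
        have : n - c = (n - (c + 1)) + 1 := by omega
        rw [this]
        exact pr_succ _ hlt
      rw [hk]
      have := step ⟨n - (c + 1), hlt⟩ (z + c)
      simp only [X, Y] at this
      rw [this]
      push_cast
      rw [add_assoc]
  have fin := key n le_rfl 0
  rw [Nat.sub_self, List.drop_zero, zero_add, ← pr_end] at fin
  apply det_of_shifty Φ hΦ _ _ 1 one_pos (n : ℤ) (by exact_mod_cast hn0.ne') (by rw [pow_one]; exact fin)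

end

end Pool.Agent.W393.VR
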