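import Pool.Agent.W393.VR.Asm
import Pool.Agent.W2.VR.VRB
import Pool.Agent.W823.VR.Sep
import Pool.Agent.W326.VR.D
import Pool.Agent.W252.VR.E
import Pool.Agent.W753.VR.CritVRC

set_option autoImplicit false

namespace Pool.Agent.W393.VR

open Monoid

theorem finite_of_index {R : Type} [Group R] {d0 : R} (hfin : (Subgroup.zpowers d0).FiniteIndex)
    (h0 : IsOfFinOrder d0) : (Subgroup.zpowers (1 : R)).FiniteIndex := by
  have h1 : Finite (Subgroup.zpowers d0) := (finite_zpowers.2 h0).to_subtype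
  have h2 : Finite R := by
    have h3 : Finite (R ⧸ Subgroup.zpowers d0) := inferInstance
    exact Finite.of_equiv _ (Subgroup.groupEquivQuotientProdSubgroup (s := Subgroup.zpowers d0)).symm
  infer_instance

theorem data_of_vrc {R : Type} [Group R] {F : Bool → Type} [∀ i, Group (F i)] (φ : ∀ i, R →* F i)
    (hinj : ∀ i, Function.Injective (φ i)) (hF : ∀ i, VRC (F i)) (d0 : R)
    (hfin : (Subgroup.zpowers d0).FiniteIndex) : Data φ d0 := by
  intro L M hL hLF hM hMF
  have hrf : ∀ i, ∀ y : F i, y ≠ 1 → ∃ N : Subgroup (F i), N.Normal ∧ N.FiniteIndex ∧ y ∉ N :=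
    fun i => Pool.Agent.W2.VR.rf_of_vrc (hF i)
  by_cases h0 : IsOfFinOrder d0
  · have hf1 := finite_of_index hfin h0
    obtain ⟨N, hN, hNF, hN1⟩ := Pool.Agent.W823.VR.sepD (hF false) (hrf false) (φ false) (hinj false) 1 hf1
    obtain ⟨N', hN', hNF', hN1'⟩ := Pool.Agent.W823.VR.sepD (hF true) (hrf true) (φ true) (hinj true) 1 hf1
    refine ⟨L ⊓ N, M ⊓ N', 1, inferInstance, inferInstance, inferInstance, inferInstance,
      inf_le_left, inf_le_left, ?_, ?_, inferInstance, Or.inl rfl, Subgroup.one_mem _⟩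
    · apply le_antisymm
      · exact (Subgroup.comap_mono inf_le_right).trans hN1
      · rw [Subgroup.zpowers_one_eq_bot]; exact bot_le
    · apply le_antisymm
      · exact (Subgroup.comap_mono inf_le_right).trans hN1'
      · rw [Subgroup.zpowers_one_eq_bot]; exact bot_le
  · obtain ⟨N, hN, hNF, hN1⟩ := Pool.Agent.W823.VR.sepD (hF false) (hrf false) (φ false) (hinj false) d0 hfin
    obtain ⟨N', hN', hNF', hN1'⟩ := Pool.Agent.W823.VR.sepD (hF true) (hrf true) (φ true) (hinj true) d0 hfin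
    have hc1 : (L ⊓ N).comap (φ false) ≤ Subgroup.zpowers d0 :=
      (Subgroup.comap_mono inf_le_right).trans hN1
    have hc2 : (M ⊓ N').comap (φ true) ≤ Subgroup.zpowers d0 :=
      (Subgroup.comap_mono inf_le_right).trans hN1'
    obtain ⟨P1, Q1, d, h1, h2, h3, h4, h5, h6, h7, h8, h9⟩ :=
      Pool.Agent.W326.VR.compat (hF false) (hF true) (φ false) (φ true) (hinj false) (hinj true) d0 h0
        (L ⊓ N) inferInstance inferInstance hc1 (M ⊓ N') inferInstance inferInstance hc2
    have hz : Subgroup.zpowers d ≤ Subgroup.zpowers d0 := by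
      rw [← h8]
      exact (Subgroup.comap_mono h5).trans hc1
    have hfi : (Subgroup.zpowers d).FiniteIndex := by
      rw [← h8]
      refine ⟨?_⟩
      rw [Subgroup.index_comap]
      exact (inferInstance : (P1.subgroupOf (φ false).range).FiniteIndex).index_ne_zero
    exact ⟨P1, Q1, d, h1, h2, h3, h4, h5.trans inf_le_left, h6.trans inf_le_left, h8, h9,
      inferInstance, Or.inr h7, hz (Subgroup.mem_zpowers d)⟩

/-- Amalgams of two groups with (VRC) over a virtually cyclic subgroup have (VRC). -/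
theorem main {R : Type} [Group R] {F : Bool → Type} [∀ i, Group (F i)] (φ : ∀ i, R →* F i)
    (hinj : ∀ i, Function.Injective (φ i)) (hR : ∃ d0 : R, (Subgroup.zpowers d0).FiniteIndex)
    (hF : ∀ i, VRC (F i)) : VRC (PushoutI φ) := by
  obtain ⟨d0, hfin⟩ := hR
  have hrf : ∀ i, ∀ y : F i, y ≠ 1 → ∃ N : Subgroup (F i), N.Normal ∧ N.FiniteIndex ∧ y ∉ N :=
    fun i => Pool.Agent.W2.VR.rf_of_vrc (hF i)
  exact assemble φ hinj (fun h1 h2 => Pool.Agent.W753.VR.vrc_of h1 h2)
    (fun g => Pool.Agent.W252.VR.classify φ g)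
    (data_of_vrc φ hinj hF d0 hfin)
    (fun i x hx => Pool.Agent.W2.VR.finSep_of_vrc (hF i) x hx)
    (fun i x hx => Pool.Agent.W2.VR.ndet_of_vrc (hF i) x hx)
    (fun i x hx => Pool.Agent.W823.VR.sepR (hF i) (hrf i) (φ i) d0 hfin x hx)

end Pool.Agent.W393.VR
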