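import Pool.Agent.W393.VR.Base

set_option autoImplicit false

namespace Pool.Agent.W393.VR

theorem AddOn.one {G : Type*} [Group G] {N : Subgroup G} {f : G → ℤ} (h : AddOn N f) : f 1 = 0 := by
  have := h 1 N.one_mem 1 N.one_mem
  simpa using this

theorem AddOn.inv {G : Type*} [Group G] {N : Subgroup G} {f : G → ℤ} (h : AddOn N f)
    {x : G} (hx : x ∈ N) : f x⁻¹ = - f x := by
  have := h x⁻¹ (N.inv_mem hx) x hx
  rw [inv_mul_cancel, h.one] at this
  omega

theorem AddOn.pow {G : Type*} [Group G] {N : Subgroup G} {f : G → ℤ} (h : AddOn N f)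
    {x : G} (hx : x ∈ N) (n : ℕ) : f (x ^ n) = n * f x := by
  induction n with
  | zero => simp [h.one]
  | succ n ih =>
    rw [pow_succ, h _ (N.pow_mem hx n) _ hx, ih]; push_cast; ring

theorem AddOn.zpow {G : Type*} [Group G] {N : Subgroup G} {f : G → ℤ} (h : AddOn N f)
    {x : G} (hx : x ∈ N) (n : ℤ) : f (x ^ n) = n * f x := by
  obtain ⟨k, rfl | rfl⟩ := n.eq_nat_or_neg
  · rw [zpow_natCast, h.pow hx]
  · rw [zpow_neg, zpow_natCast, h.inv (N.pow_mem hx k), h.pow hx]; push_cast; ring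

/-- A homomorphism to permutations of `Ω × ℤ` commuting with the shifts. -/
def Shifty {G Ω : Type*} [Group G] (Φ : G →* Equiv.Perm (Ω × ℤ)) : Prop :=
  ∀ (g : G) (ω : Ω) (z k : ℤ), Φ g (ω, z + k) = ((Φ g (ω, z)).1, (Φ g (ω, z)).2 + k)

theorem Shifty.apply {G Ω : Type*} [Group G] {Φ : G →* Equiv.Perm (Ω × ℤ)} (h : Shifty Φ)
    (g : G) (ω : Ω) (z : ℤ) : Φ g (ω, z) = ((Φ g (ω, 0)).1, (Φ g (ω, 0)).2 + z) := by
  have := h g ω 0 z
  rwa [zero_add] at this

/-- The induced action on `Ω`. -/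
def Shifty.act {G Ω : Type*} [Group G] {Φ : G →* Equiv.Perm (Ω × ℤ)} (h : Shifty Φ) :
    G →* Function.End Ω where
  toFun g := fun ω => (Φ g (ω, 0)).1
  map_one' := by
    funext ω
    simp
    rfl
  map_mul' x y := by
    funext ω
    show (Φ (x * y) (ω, 0)).1 = (Φ x ((Φ y (ω, 0)).1, 0)).1
    rw [map_mul, Equiv.Perm.mul_apply]
    conv_lhs => rw [show Φ y (ω, 0) = ((Φ y (ω, 0)).1, (Φ y (ω, 0)).2) from rfl, h.apply]

theorem det_of_shifty {G Ω : Type*} [Group G] [Finite Ω] (Φ : G →* Equiv.Perm (Ω × ℤ))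
    (h : Shifty Φ) (g : G) (ω : Ω) (m : ℕ) (hm : 0 < m) (c : ℤ) (hc : c ≠ 0)
    (hg : Φ (g ^ m) (ω, 0) = (ω, c)) : Det g := by
  classical
  let A : G →* Equiv.Perm Ω := h.act.toHomPerm
  have hA : ∀ g ω, A g ω = (Φ g (ω, 0)).1 := fun g ω => rfl
  let N : Subgroup G := (MulAction.stabilizer (Equiv.Perm Ω) ω).comap A
  have hN : ∀ x, x ∈ N ↔ (Φ x (ω, 0)).1 = ω := by
    intro x
    rw [Subgroup.mem_comap, MulAction.mem_stabilizer_iff, Equiv.Perm.smul_def, hA]
  have hfin : Finite (Equiv.Perm Ω) := inferInstance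
  refine ⟨N, ?_, fun x => (Φ x (ω, 0)).2, ?_, m, hm, ?_, ?_⟩
  · have : A.ker ≤ N := by
      intro x hx
      rw [MonoidHom.mem_ker] at hx
      rw [hN, ← hA, hx]; rfl
    have hk : A.ker.FiniteIndex := by infer_instance
    exact Subgroup.finiteIndex_of_le this
  · intro x hx y hy
    rw [hN] at hx hy
    show (Φ (x * y) (ω, 0)).2 = _
    rw [map_mul, Equiv.Perm.mul_apply]
    conv_lhs => rw [show Φ y (ω, 0) = ((Φ y (ω, 0)).1, (Φ y (ω, 0)).2) from rfl, h.apply, hy]
  · rw [hN, hg]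
  · show (Φ (g ^ m) (ω, 0)).2 ≠ 0
    rw [hg]; exact hc


section side

variable {P R : Type*} [Group P] [Group R] (a : R →* P) (P1 : Subgroup P) (d : R)
  {V E : Type*} (p : V → E → P)

/-- the section attached to representatives -/
noncomputable def sec (v : V) (t : E × (R ⧸ Subgroup.zpowers d)) : P := a t.2.out * p v t.1

/-- the section is a transversal -/
def Trans : Prop := ∀ (v : V) (y : P),
  ∃! t : E × (R ⧸ Subgroup.zpowers d), (sec a d p v t)⁻¹ * y ∈ P1

variable {a P1 d p}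

/-- index of the coset of `y` -/
noncomputable def cho (hT : Trans a P1 d p) (v : V) (y : P) : E × (R ⧸ Subgroup.zpowers d) :=
  (hT v y).choose

theorem cho_mem (hT : Trans a P1 d p) (v : V) (y : P) : (sec a d p v (cho hT v y))⁻¹ * y ∈ P1 :=
  (hT v y).choose_spec.1

theorem cho_eq (hT : Trans a P1 d p) (v : V) (y : P) (t : E × (R ⧸ Subgroup.zpowers d))
    (h : (sec a d p v t)⁻¹ * y ∈ P1) : cho hT v y = t :=
  ((hT v y).choose_spec.2 t h).symm

/-- the underlying map -/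
noncomputable def sideFun (hT : Trans a P1 d p) (f : V → P → ℤ) (u : V × E → ℤ) (x : P) :
    ((V × E) × (R ⧸ Subgroup.zpowers d)) × ℤ → ((V × E) × (R ⧸ Subgroup.zpowers d)) × ℤ :=
  fun w => (((w.1.1.1, (cho hT w.1.1.1 (x * sec a d p w.1.1.1 (w.1.1.2, w.1.2))).1),
      (cho hT w.1.1.1 (x * sec a d p w.1.1.1 (w.1.1.2, w.1.2))).2),
    w.2 + f w.1.1.1 ((sec a d p w.1.1.1 (cho hT w.1.1.1 (x * sec a d p w.1.1.1 (w.1.1.2, w.1.2))))⁻¹
        * (x * sec a d p w.1.1.1 (w.1.1.2, w.1.2)))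
      + u (w.1.1.1, (cho hT w.1.1.1 (x * sec a d p w.1.1.1 (w.1.1.2, w.1.2))).1)
      - u w.1.1)

theorem sideFun_eq (hT : Trans a P1 d p) (f : V → P → ℤ) (u : V × E → ℤ) (x : P) (v : V)
    (t t' : E × (R ⧸ Subgroup.zpowers d)) (z : ℤ)
    (h : (sec a d p v t')⁻¹ * (x * sec a d p v t) ∈ P1) :
    sideFun hT f u x (((v, t.1), t.2), z) =
      (((v, t'.1), t'.2), z + f v ((sec a d p v t')⁻¹ * (x * sec a d p v t))
        + u (v, t'.1) - u (v, t.1)) := by
  have := cho_eq hT v _ t' h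
  simp only [sideFun, Prod.mk.eta, this]

/-- the side homomorphism -/
noncomputable def side (hT : Trans a P1 d p) (f : V → P → ℤ) (hf : ∀ v, AddOn P1 (f v))
    (u : V × E → ℤ) : P →* Equiv.Perm (((V × E) × (R ⧸ Subgroup.zpowers d)) × ℤ) :=
  MonoidHom.toHomPerm
    { toFun := fun x => sideFun hT f u x
      map_one' := by
        funext w
        obtain ⟨⟨⟨v, e⟩, s⟩, z⟩ := w
        have h1 : (sec a d p v (e, s))⁻¹ * (1 * sec a d p v (e, s)) = 1 := by group
        have := sideFun_eq hT f u 1 v (e, s) (e, s) z (by rw [h1]; exact P1.one_mem)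
        rw [h1, (hf v).one] at this
        show sideFun hT f u 1 (((v, e), s), z) = (((v, e), s), z)
        rw [this]; simp
      map_mul' := by
        intro x y
        funext w
        obtain ⟨⟨⟨v, e⟩, s⟩, z⟩ := w
        show sideFun hT f u (x * y) (((v, e), s), z) = sideFun hT f u x (sideFun hT f u y (((v, e), s), z))
        obtain ⟨t1, ht1⟩ : ∃ t1, cho hT v (y * sec a d p v (e, s)) = t1 := ⟨_, rfl⟩
        have m1 := cho_mem hT v (y * sec a d p v (e, s))
        rw [ht1] at m1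
        obtain ⟨t2, ht2⟩ : ∃ t2, cho hT v (x * sec a d p v t1) = t2 := ⟨_, rfl⟩
        have m2 := cho_mem hT v (x * sec a d p v t1)
        rw [ht2] at m2
        have e3 : (sec a d p v t2)⁻¹ * (x * y * sec a d p v (e, s)) =
            ((sec a d p v t2)⁻¹ * (x * sec a d p v t1)) *
              ((sec a d p v t1)⁻¹ * (y * sec a d p v (e, s))) := by group
        have m3 : (sec a d p v t2)⁻¹ * (x * y * sec a d p v (e, s)) ∈ P1 := by
          rw [e3]; exact P1.mul_mem m2 m1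
        rw [sideFun_eq hT f u y v (e, s) t1 z m1, sideFun_eq hT f u x v t1 t2 _ m2,
          sideFun_eq hT f u (x * y) v (e, s) t2 z m3, e3, hf v _ m2 _ m1]
        congr 1
        simp only
        ring }

theorem side_eq (hT : Trans a P1 d p) (f : V → P → ℤ) (hf : ∀ v, AddOn P1 (f v))
    (u : V × E → ℤ) (x : P) (v : V)
    (t t' : E × (R ⧸ Subgroup.zpowers d)) (z : ℤ)
    (h : (sec a d p v t')⁻¹ * (x * sec a d p v t) ∈ P1) :
    side hT f hf u x (((v, t.1), t.2), z) =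
      (((v, t'.1), t'.2), z + f v ((sec a d p v t')⁻¹ * (x * sec a d p v t))
        + u (v, t'.1) - u (v, t.1)) :=
  sideFun_eq hT f u x v t t' z h

theorem side_shifty (hT : Trans a P1 d p) (f : V → P → ℤ) (hf : ∀ v, AddOn P1 (f v))
    (u : V × E → ℤ) : Shifty (side hT f hf u) := by
  intro g ω z k
  obtain ⟨⟨v, e⟩, s⟩ := ω
  have h := cho_mem hT v (g * sec a d p v (e, s))
  rw [side_eq hT f hf u g v (e, s) _ (z + k) h, side_eq hT f hf u g v (e, s) _ z h]
  congr 1
  simp only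
  ring

theorem out_mem (r : R) (s : R ⧸ Subgroup.zpowers d) :
    ∃ k : ℤ, d ^ k = (r • s).out⁻¹ * r * s.out := by
  have h : ((r • s).out : R ⧸ Subgroup.zpowers d) = ((r * s.out : R) : R ⧸ Subgroup.zpowers d) := by
    rw [QuotientGroup.out_eq']
    conv_lhs => rw [← QuotientGroup.out_eq' s]
    rfl
  have h2 := QuotientGroup.eq.1 h
  obtain ⟨k, hk⟩ := Subgroup.mem_zpowers_iff.1 h2
  exact ⟨k, by rw [hk, mul_assoc]⟩

/-- the exponent -/
noncomputable def kk (d r : R) (s : R ⧸ Subgroup.zpowers d) : ℤ := (out_mem r s).choose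

theorem kk_spec (r : R) (s : R ⧸ Subgroup.zpowers d) :
    d ^ (kk d r s) = (r • s).out⁻¹ * r * s.out := (out_mem r s).choose_spec

theorem side_base (hT : Trans a P1 d p) (hN : P1.Normal) (hd : a d ∈ P1)
    (f : V → P → ℤ) (hf : ∀ v, AddOn P1 (f v))
    (u : V × E → ℤ) (r : R) (v : V) (e : E) (s : R ⧸ Subgroup.zpowers d) (z : ℤ) :
    side hT f hf u (a r) (((v, e), s), z) =
      (((v, e), r • s), z + kk d r s * f v ((p v e)⁻¹ * a d * p v e)) := by
  have e1 : (sec a d p v (e, r • s))⁻¹ * (a r * sec a d p v (e, s)) =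
      ((p v e)⁻¹ * a d * p v e) ^ (kk d r s) := by
    have h1 : ((p v e)⁻¹ * a d * p v e) ^ (kk d r s) = (p v e)⁻¹ * (a d) ^ (kk d r s) * p v e := by
      have := conj_zpow (i := kk d r s) (a := (p v e)⁻¹) (b := a d)
      simpa using this
    rw [h1, ← map_zpow, kk_spec]
    simp only [sec, map_mul, map_inv]
    group
  have hm : (p v e)⁻¹ * a d * p v e ∈ P1 := by
    have := hN.conj_mem _ hd (p v e)⁻¹
    simpa using this
  rw [side_eq hT f hf u (a r) v (e, s) (e, r • s) z (by rw [e1]; exact P1.zpow_mem hm _), e1,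
    (hf v).zpow hm]
  congr 1
  simp only
  ring

end side

end Pool.Agent.W393.VR
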