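import Pool.Agent.W393.VR.Side

set_option autoImplicit false

namespace Pool.Agent.W393.VR

/-- the double coset relation -/
def dcs {P R : Type*} [Group P] [Group R] (a : R →* P) (P1 : Subgroup P) : Setoid P where
  r x y := ∃ r : R, ∃ n ∈ P1, y = a r * x * n
  iseqv :=
    { refl := fun x => ⟨1, 1, P1.one_mem, by simp⟩
      symm := by
        rintro x y ⟨r, n, hn, rfl⟩
        exact ⟨r⁻¹, n⁻¹, P1.inv_mem hn, by simp [map_inv, mul_assoc]⟩
      trans := by
        rintro x y z ⟨r, n, hn, rfl⟩ ⟨r', n', hn', rfl⟩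
        exact ⟨r' * r, n * n', P1.mul_mem hn hn', by simp [mul_assoc]⟩ }

theorem exists_trans {P R : Type*} [Group P] [Group R] (a : R →* P) (P1 : Subgroup P)
    (hN : P1.Normal) (hF : P1.FiniteIndex) (d : R) (hd : P1.comap a = Subgroup.zpowers d) :
    ∃ (m : ℕ) (mk : P → Fin m), Function.Surjective mk ∧
      (∀ x y, mk x = mk y ↔ ∃ r : R, ∃ n ∈ P1, y = a r * x * n) ∧
      ∀ (V : Type) (p : V → Fin m → P), (∀ v e, mk (p v e) = e) → Trans a P1 d p := by
  classical
  have hfin : Finite (Quotient (dcs a P1)) := by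
    have : Finite (P ⧸ P1) := inferInstance
    let g : P ⧸ P1 → Quotient (dcs a P1) := fun x => Quotient.mk _ x.out
    apply Finite.of_surjective g
    intro y
    obtain ⟨y, rfl⟩ := Quotient.exists_rep y
    refine ⟨(y : P ⧸ P1), ?_⟩
    apply Quotient.sound
    have h1 : ((y : P ⧸ P1).out : P ⧸ P1) = (y : P ⧸ P1) := QuotientGroup.out_eq' _
    have h2 := QuotientGroup.eq.1 h1
    exact ⟨1, _, h2, by simp⟩
  obtain ⟨m, ⟨eq⟩⟩ := Finite.exists_equiv_fin (Quotient (dcs a P1))
  have hiff : ∀ x y, eq (Quotient.mk (dcs a P1) x) = eq (Quotient.mk (dcs a P1) y) ↔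
      ∃ r : R, ∃ n ∈ P1, y = a r * x * n := by
    intro x y
    rw [eq.injective.eq_iff]
    exact ⟨fun h => Quotient.exact h, fun h => Quotient.sound h⟩
  refine ⟨m, fun x => eq (Quotient.mk _ x), ?_, hiff, ?_⟩
  · intro e
    obtain ⟨x, hx⟩ := Quotient.exists_rep (eq.symm e)
    exact ⟨x, by show eq (Quotient.mk _ x) = e; rw [hx]; simp⟩
  · intro V p hp v y
    have hmem : ∀ r : R, a r ∈ P1 ↔ r ∈ Subgroup.zpowers d := by
      intro r; rw [← hd]; rfl
    obtain ⟨r, n, hn, hy⟩ := (hiff (p v (eq (Quotient.mk _ y))) y).1 (hp v _)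
    set e := eq (Quotient.mk (dcs a P1) y) with he
    refine ⟨(e, (r : R ⧸ Subgroup.zpowers d)), ?_, ?_⟩
    · show (sec a d p v (e, (r : R ⧸ Subgroup.zpowers d)))⁻¹ * y ∈ P1
      have h1 : (((r : R ⧸ Subgroup.zpowers d)).out : R ⧸ Subgroup.zpowers d) =
        (r : R ⧸ Subgroup.zpowers d) := QuotientGroup.out_eq' _
      have h2 := (hmem _).2 (QuotientGroup.eq.1 h1)
      have h3 : (sec a d p v (e, (r : R ⧸ Subgroup.zpowers d)))⁻¹ * y =
          ((p v e)⁻¹ * a ((r : R ⧸ Subgroup.zpowers d).out⁻¹ * r) * p v e) * n := by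
        rw [hy]
        simp only [sec, map_mul, map_inv]
        group
      rw [h3]
      refine P1.mul_mem ?_ hn
      have := hN.conj_mem _ h2 (p v e)⁻¹
      simpa using this
    · rintro ⟨e', s'⟩ h'
      have h' : (sec a d p v (e', s'))⁻¹ * y ∈ P1 := h'
      have hy' : y = a s'.out * p v e' * ((sec a d p v (e', s'))⁻¹ * y) := by
        simp only [sec]; group
      have he' : e' = e := by
        have := (hiff (p v e') y).2 ⟨_, _, h', hy'⟩
        rw [← hp v e', he]
        exact this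
      rw [he'] at h' hy' ⊢
      clear he'
      congr 1
      have h4 : (p v e)⁻¹ * a (r⁻¹ * s'.out) * p v e =
          n * ((sec a d p v (e, s'))⁻¹ * y)⁻¹ := by
        have : a s'.out * p v e = y * ((sec a d p v (e, s'))⁻¹ * y)⁻¹ := by
          simp only [sec]; group
        have e5 : (p v e)⁻¹ * a (r⁻¹ * s'.out) * p v e =
            (p v e)⁻¹ * (a r)⁻¹ * (a s'.out * p v e) := by
          simp only [map_mul, map_inv]; group
        rw [e5, this]
        nth_rewrite 1 [hy]
        group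
      have h5 : a (r⁻¹ * s'.out) ∈ P1 := by
        have h6 : (p v e)⁻¹ * a (r⁻¹ * s'.out) * p v e ∈ P1 := by
          rw [h4]; exact P1.mul_mem hn (P1.inv_mem h')
        have := hN.conj_mem _ h6 (p v e)
        simpa [mul_assoc] using this
      have h7 := (hmem _).1 h5
      have h8 : (r : R ⧸ Subgroup.zpowers d) = ((s'.out : R) : R ⧸ Subgroup.zpowers d) :=
        QuotientGroup.eq.2 h7
      rw [h8, QuotientGroup.out_eq']

end Pool.Agent.W393.VR
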